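import Pool.Agent.H.MP_e60a9a_co.Defs

set_option autoImplicit false

namespace Pool.Agent.H.MP_e60a9a_co

open Finset

variable {k : Type} [Field k] {R R' : Type} [CommRing R] [Algebra k R] [CommRing R'] [Algebra k R']

lemma nw_zero (f : ℕ → R) : newton k f 0 = 1 := by rw [newton]

lemma nw_succ (f : ℕ → R) (n : ℕ) : newton k f (n + 1) =
    ((n + 1 : ℕ) : k)⁻¹ • ∑ x ∈ antidiagonal n, f x.1 * newton k f x.2 := by
  rw [newton, Nat.sum_antidiagonal_eq_sum_range_succ (fun i j => f i * newton k f j), sum_range]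

lemma nw_map (φ : R →ₐ[k] R') (f : ℕ → R) (n : ℕ) :
    φ (newton k f n) = newton k (fun i => φ (f i)) n := by
  induction n using Nat.strong_induction_on with
  | _ n ih =>
  rcases n with _ | n
  · simp [nw_zero]
  rw [nw_succ, nw_succ, map_smul, map_sum]
  congr 1
  refine sum_congr rfl fun x hx => ?_
  rw [map_mul, ih _ (by have := mem_antidiagonal.1 hx; omega)]

lemma nw_mem (W : ℕ → Submodule k R) (h1 : 1 ∈ W 0)
    (hm : ∀ i j a b, a ∈ W i → b ∈ W j → a * b ∈ W (i + j)) (f : ℕ → R) (hf : ∀ i, f i ∈ W (i + 1))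
    (n : ℕ) : newton k f n ∈ W n := by
  induction n using Nat.strong_induction_on with
  | _ n ih =>
  rcases n with _ | n
  · rwa [nw_zero]
  rw [nw_succ]
  refine Submodule.smul_mem _ _ (Submodule.sum_mem _ fun x hx => ?_)
  have := mem_antidiagonal.1 hx
  exact (show x.1 + 1 + x.2 = n + 1 by omega) ▸ hm _ _ _ _ (hf _) (ih _ (by omega))

lemma nw_scale (y : R) (f : ℕ → R) (n : ℕ) :
    newton k (fun i => y ^ (i + 1) * f i) n = y ^ n * newton k f n := by
  induction n using Nat.strong_induction_on with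
  | _ n ih =>
  rcases n with _ | n
  · simp [nw_zero]
  rw [nw_succ, nw_succ, mul_smul_comm, mul_sum]
  congr 1
  refine sum_congr rfl fun x hx => ?_
  have := mem_antidiagonal.1 hx
  rw [ih _ (by omega), ← this]
  ring

variable [CharZero k]

lemma nw_succ' (f : ℕ → R) (n : ℕ) : newton k f (n + 1) * (n + 1) =
    ∑ x ∈ antidiagonal n, f x.1 * newton k f x.2 := by
  rw [nw_succ, smul_mul_assoc, ← Nat.cast_succ, ← nsmul_eq_mul', ← Nat.cast_smul_eq_nsmul k,
    inv_smul_smul₀ (Nat.cast_ne_zero.2 n.succ_ne_zero)]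

open PowerSeries in
lemma nw_uniq (f : ℕ → R) (S : R⟦X⟧) (h0 : coeff 0 S = 1) (h : d⁄dX R S = mk f * S) (n : ℕ) :
    coeff n S = newton k f n := by
  induction n using Nat.strong_induction_on with
  | _ n ih =>
  rcases n with _ | n
  · rwa [nw_zero]
  have := congrArg (coeff n) h
  rw [coeff_derivative, coeff_mul, ← Nat.cast_succ, ← nsmul_eq_mul', ← Nat.cast_smul_eq_nsmul k] at this
  rw [nw_succ, eq_inv_smul_iff₀ (Nat.cast_ne_zero.2 n.succ_ne_zero), this]
  refine sum_congr rfl fun x hx => ?_
  rw [coeff_mk, ih _ (by have := mem_antidiagonal.1 hx; omega)]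

open PowerSeries in
lemma nw_add (f g : ℕ → R) (n : ℕ) : newton k (fun i => f i + g i) n =
    ∑ x ∈ antidiagonal n, newton k f x.1 * newton k g x.2 := by
  have D : ∀ f : ℕ → R, d⁄dX R (mk (newton k f)) = mk f * mk (newton k f) := fun f => by
    ext n
    simp only [coeff_derivative, coeff_mul, coeff_mk, nw_succ']
  rw [← nw_uniq (k := k) _ (mk (newton k f) * mk (newton k g)) (by simp [nw_zero]), coeff_mul]
  · simp only [coeff_mk]
  · rw [Derivation.leibniz, D, D, show (mk fun i => f i + g i) = mk f + mk g by ext; simp]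
    simp only [smul_eq_mul]
    ring

/-- `mc a n = binom (a + n - 1) n` -/
noncomputable def mc (a : k) (n : ℕ) : k := newton k (fun _ => a) n

lemma mc_eq (a : k) (n : ℕ) : mc a n * n.factorial = ∏ i ∈ range n, (a + i) := by
  have h : ∀ n, mc a (n + 1) * (n + 1) = (a + n) * mc a n := by
    intro n
    rcases n with _ | n
    · simp [mc, nw_zero, nw_succ]
    · have h1 := nw_succ' (k := k) (fun _ => a) (n + 1)
      rw [Nat.sum_antidiagonal_succ, ← nw_succ' (k := k) (fun _ => a) n] at h1
      simp only [mc]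
      push_cast at h1 ⊢
      linear_combination h1
  induction n with
  | zero => simp [mc, nw_zero]
  | succ n ih =>
    rw [prod_range_succ, ← ih, Nat.factorial_succ]
    push_cast
    linear_combination (n.factorial : k) * h n

omit [CharZero k] in
lemma nw_geo (y : R) (a : k) (n : ℕ) :
    newton k (fun i => a • y ^ (i + 1)) n = mc a n • y ^ n := by
  have := nw_map (Algebra.ofId k R) (fun _ => a) n
  simp only [Algebra.ofId_apply] at this
  simp only [Algebra.smul_def, mul_comm _ (y ^ _)]
  rw [nw_scale, mc, this]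

open MvPolynomial

lemma zee_ne (d : ℕ →₀ ℕ) : zee d ≠ 0 :=
  prod_ne_zero_iff.2 fun _ _ => mul_ne_zero (pow_ne_zero _ (by omega)) (Nat.factorial_ne_zero _)

lemma zee_add (d : ℕ →₀ ℕ) (i : ℕ) : zee (d + Finsupp.single i 1) = zee d * ((i + 1) * (d i + 1)) := by
  have h : ∀ d : ℕ →₀ ℕ, zee d = zee (d.erase i) * ((i + 1) ^ d i * (d i).factorial) := fun d => by
    rw [zee, ← Finsupp.mul_prod_erase' d i _ (by simp), mul_comm]
    rfl
  rw [h, h d, Finsupp.erase_add, Finsupp.erase_single, add_zero]
  simp [pow_succ, Nat.factorial_succ]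
  ring

lemma nw_coeff (f : ℕ → R) (n : ℕ) (d : ℕ →₀ ℕ) :
    coeff d (newton k (fun i => C (f i) * X i) n : MvPolynomial ℕ R) =
      if Finsupp.weight (fun i => i + 1) d = n then (zee d : k)⁻¹ • d.prod fun i m => f i ^ m
      else 0 := by
  induction n using Nat.strong_induction_on generalizing d with
  | _ n ih =>
  rcases n with _ | n
  · rw [nw_zero, coeff_one]
    by_cases h : d = 0
    · simp [h, zee]
    · rw [if_neg (Ne.symm h), if_neg]
      have : Finsupp.NonTorsionWeight ℕ fun i : ℕ => i + 1 :=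
        Finsupp.nonTorsionWeight_of ℕ _ (by simp)
      rwa [Finsupp.weight_eq_zero_iff_eq_zero]
  rw [nw_succ, coeff_smul, coeff_sum, sum_congr rfl (g := fun x => if Finsupp.weight (fun i => i + 1) d
      = n + 1 then (((x.1 + 1) * d x.1 : ℕ) : k) • (zee d : k)⁻¹ • d.prod fun i m => f i ^ m else 0)]
  · split_ifs with h
    · rw [← sum_smul, ← Nat.cast_sum, Nat.sum_antidiagonal_eq_sum_range_succ fun i _ => (i + 1) * d i]
      have : ∑ i ∈ range n.succ, (i + 1) * d i = n + 1 := by
        rw [← h, Finsupp.weight_apply, Finsupp.sum_of_support_subset d (s := range n.succ)]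
        · simp [mul_comm]
        · intro i hi
          have := Finsupp.le_weight_of_ne_zero' (fun i : ℕ => i + 1) (Finsupp.mem_support_iff.1 hi)
          rw [mem_range]
          omega
        · simp
      rw [this, inv_smul_smul₀ (Nat.cast_ne_zero.2 n.succ_ne_zero)]
    · simp
  intro x hx
  have hx := mem_antidiagonal.1 hx
  rw [mul_assoc, coeff_C_mul, coeff_X_mul']
  by_cases h : x.1 ∈ d.support
  · obtain ⟨d', rfl⟩ : ∃ d', d = d' + Finsupp.single x.1 1 :=
      ⟨_, (Finsupp.sub_add_single_one_cancel (Finsupp.mem_support_iff.1 h)).symm⟩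
    rw [if_pos h, add_tsub_cancel_right, ih _ (by omega), map_add, Finsupp.weight_single, zee_add,
      Finsupp.prod_add_index' (by simp) (by simp [pow_add])]
    simp only [smul_eq_mul, one_mul, ← hx, show ∀ a, a + (x.1 + 1) = x.1 + x.2 + 1 ↔ a = x.2 by omega]
    split_ifs
    · rw [smul_smul, mul_smul_comm, mul_comm (f _)]
      congr 1
      · have := zee_ne d'
        simp
        field_simp
      · simp
    · simp
  · rw [if_neg h, Finsupp.notMem_support_iff.1 h]
    simp

end Pool.Agent.H.MP_e60a9a_co
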