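import Pool.Agent.H.MP_e60a9a_co.A

set_option autoImplicit false

namespace Pool.Agent.H.MP_e60a9a_co

open Finset MvPolynomial

noncomputable def g : ℕ → Λ := newton K fun i => α • X i

noncomputable def PP (c : ℕ → K) (n : ℕ) : Λ := ∑ x ∈ antidiagonal n, c x.1 • (g x.1 * g x.2)

noncomputable def rf (β : K) (i : ℕ) : Polynomial K := β • (Polynomial.X ^ (i + 1) + 1)

noncomputable def ρ (β : K) : Λ →ₐ[K] Polynomial K := aeval (rf β)

noncomputable def LL (c : ℕ → K) (n : ℕ) (q : Polynomial K) : K :=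
  ∑ x ∈ antidiagonal n, c x.1 * q.coeff x.1

lemma coeff_gg (a b : ℕ) (d : ℕ →₀ ℕ) (h : Finsupp.weight (fun i => i + 1) d = a + b) :
    coeff d (g a * g b) = (zee d : K)⁻¹ * (d.prod fun i m => rf α i ^ m).coeff a := by
  let ι : Λ →ₐ[K] MvPolynomial ℕ (Polynomial K) := mapAlgHom (Algebra.ofId K _)
  have h1 := nw_coeff (k := K) (rf α) (a + b) d
  rw [if_pos h, show (fun i => C (rf α i) * X i) = fun i => C Polynomial.X ^ (i + 1) * ι (α • X i) +
    ι (α • X i) by
      ext1 i
      simp only [rf, ι, mapAlgHom_apply, map_X, Algebra.smul_def, map_mul, map_add,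
        map_pow, map_one, MvPolynomial.algebraMap_apply, map_C]
      simp
      ring, nw_add, coeff_sum] at h1
  simp only [nw_scale] at h1
  simp only [← nw_map ι, mul_assoc, ← map_mul, ← map_pow, coeff_C_mul] at h1
  have hι : ∀ F, coeff d (ι F) = Polynomial.C (coeff d F) := fun F => coeff_map _ _ _
  have h2 := congrArg (Polynomial.coeff · a) h1
  simp only [Polynomial.finsetSum_coeff, Polynomial.coeff_smul, smul_eq_mul, hι,
    Polynomial.coeff_mul_C, Polynomial.coeff_X_pow] at h2
  rw [← h2, sum_eq_single (a, b)]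
  · simp [g]
  · rintro ⟨x, y⟩ hx hne
    have := mem_antidiagonal.1 hx
    rw [if_neg fun e => hne (by simp only [Prod.mk.injEq] at e this ⊢; omega), zero_mul]
  · simp

lemma form_PP (t : K) (c : ℕ → K) (n : ℕ) (F : Λ) (hF : Hom n F) :
    form t (PP c n) F = LL c n (ρ (t * α) F) := by
  have h1 : ρ (t * α) F = ∑ d ∈ F.support, (coeff d F * t ^ d.degree) •
      d.prod fun i m => rf α i ^ m := by
    conv_lhs => rw [F.as_sum, map_sum]
    refine sum_congr rfl fun d _ => ?_
    have : ∀ i, rf (t * α) i = algebraMap K _ t * rf α i := fun i => by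
      rw [rf, mul_smul, Algebra.smul_def, rf]
    simp only [ρ, aeval_monomial, this, mul_pow, Finsupp.prod_mul, Algebra.smul_def, map_mul,
      map_pow, mul_assoc]
    rw [Finsupp.prod, prod_pow_eq_pow_sum, Finsupp.degree_apply]
  simp only [form, LL, h1, Polynomial.finsetSum_coeff, mul_sum]
  rw [sum_comm]
  refine sum_congr rfl fun d hd => ?_
  simp only [PP, coeff_sum, sum_mul]
  refine sum_congr rfl fun x hx => ?_
  have := zee_ne d
  rw [coeff_smul, coeff_gg _ _ _ ((hF (mem_support_iff.1 hd)).trans (mem_antidiagonal.1 hx).symm)]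
  simp only [smul_eq_mul, Polynomial.coeff_smul]
  field_simp

lemma hom_nw (f : ℕ → K) (n : ℕ) : Hom n (newton K (fun i => f i • X i) n) :=
  nw_mem (weightedHomogeneousSubmodule K fun i => i + 1) (isWeightedHomogeneous_one _ _)
    (fun _ _ _ _ ha hb => IsWeightedHomogeneous.mul ha hb) _
    (fun i => Submodule.smul_mem _ _ (isWeightedHomogeneous_X _ _ i)) n

lemma hom_PP (c : ℕ → K) (n : ℕ) : Hom n (PP c n) :=
  Submodule.sum_mem (weightedHomogeneousSubmodule K (fun i => i + 1) n) fun _ hx =>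
    Submodule.smul_mem _ _ (mem_antidiagonal.1 hx ▸ IsWeightedHomogeneous.mul (hom_nw _ _) (hom_nw _ _))

lemma hom_toX {n : ℕ} (N : ℕ) {F : Λ} (hF : Hom n F) : (toX N F).IsHomogeneous n := by
  rw [F.as_sum, map_sum]
  refine IsHomogeneous.sum _ _ _ fun d hd => ?_
  rw [toX, aeval_monomial, ← hF (mem_support_iff.1 hd), Finsupp.weight_apply]
  refine IsHomogeneous.C_mul (IsHomogeneous.prod _ _ _ fun i _ => ?_) _
  simp only [smul_eq_mul, mul_comm (d i)]
  exact (IsHomogeneous.sum _ _ _ fun j _ => isHomogeneous_X_pow j _).pow _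

noncomputable def ε (N : ℕ) : MvPolynomial (Fin (N + 2)) K →ₐ[K] Polynomial K :=
  aeval (Fin.cons Polynomial.X (Fin.cons 1 0))

lemma ε_toX (N : ℕ) (F : Λ) : ε N (toX (N + 2) F) = ρ 1 F := by
  have : (ε N).comp (toX (N + 2)) = ρ 1 := by
    ext1 i
    simp [ε, toX, ρ, rf, psum, Fin.sum_univ_succ]
  exact DFunLike.congr_fun this F

noncomputable def two (N a b : ℕ) : Fin (N + 2) →₀ ℕ :=
  Finsupp.equivFunOnFinite.symm (Fin.cons a (Fin.cons b 0))

lemma coeff_ε {N a b : ℕ} {q : MvPolynomial (Fin (N + 2)) K} (h : q.IsHomogeneous (a + b)) :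
    (ε N q).coeff a = coeff (two N a b) q := by
  conv_lhs => rw [q.as_sum, map_sum, Polynomial.finsetSum_coeff]
  conv_rhs => rw [q.as_sum, coeff_sum]
  refine sum_congr rfl fun d hd => ?_
  have h1 : d.degree = a + b := by
    rw [Finsupp.degree_eq_weight_one]
    exact h (mem_support_iff.1 hd)
  rw [Finsupp.degree_eq_sum, Fin.sum_univ_succ, Fin.sum_univ_succ] at h1
  rw [ε, aeval_monomial, Finsupp.prod_fintype _ _ (by simp), Fin.prod_univ_succ, Fin.prod_univ_succ,
    coeff_monomial]
  simp only [Fin.cons_zero, Fin.cons_succ, one_pow, one_mul, Pi.zero_apply]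
  by_cases h2 : ∀ i : Fin N, d i.succ.succ = 0
  · have : d = two N a b ↔ a = d 0 := by
      simp only [Finsupp.ext_iff, Fin.forall_fin_succ, two, h2] at h1 ⊢
      simp at h1 ⊢
      omega
    simp [h2, this, Polynomial.coeff_X_pow]
  · push Not at h2
    obtain ⟨i, hi⟩ := h2
    rw [prod_eq_zero (mem_univ i) (zero_pow hi), if_neg fun e => hi (by simp [e, two])]
    simp

lemma rect_row (a b i : ℕ) : (rect a b).rowLen i = if i < a then b else 0 := by
  refine eq_of_forall_lt_iff fun j => ?_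
  rw [← YoungDiagram.mem_iff_lt_rowLen, ← YoungDiagram.mem_cells]
  simp only [rect, mem_product, mem_range]
  split_ifs <;> omega

lemma rect_col (a b j : ℕ) : (rect a b).colLen j = if j < b then a else 0 := by
  refine eq_of_forall_lt_iff fun i => ?_
  rw [← YoungDiagram.mem_iff_lt_colLen, ← YoungDiagram.mem_cells]
  simp only [rect, mem_product, mem_range]
  split_ifs <;> omega

lemma lead_eq {N k : ℕ} {F : Λ} (hF : Hom (k + k) F) :
    lead (N + 2) (rect 2 k) F = (ρ 1 F).coeff k := by
  rw [← ε_toX N, coeff_ε (hom_toX _ hF), lead, two]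
  congr 2
  ext i
  refine Fin.cases (by simp [rect_row]) (fun i => Fin.cases (by simp [rect_row]) (fun i => ?_) i) i
  simp [rect_row]

lemma α_ne : α ≠ 0 := RatFunc.X_ne_zero

lemma orth {N k : ℕ} (c : ℕ → K) {F : Λ} (hF : Hom (k + k) F) (h1 : Tri (N + 2) (rect 2 k) F)
    (h2 : lead (N + 2) (rect 2 k) F = 0) : form α⁻¹ (PP c (k + k)) F = 0 := by
  rw [form_PP _ _ _ _ hF, inv_mul_cancel₀ α_ne]
  refine sum_eq_zero fun x hx => mul_eq_zero_of_right _ ?_
  have hx := mem_antidiagonal.1 hx
  by_cases h : x.1 = k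
  · rwa [h, ← lead_eq hF]
  · rw [← ε_toX N, coeff_ε (b := x.2) (hx ▸ hom_toX _ hF)]
    by_contra hc
    have a := h1 _ hc {0}
    have b := h1 _ hc {Fin.succ 0}
    simp [two, rect_row] at a b
    omega

lemma tri_PP {N k : ℕ} (c : ℕ → K) (h : ∀ r s, r + s < k → ∑ x ∈ antidiagonal (k + k),
    (if r ≤ x.1 ∧ s ≤ x.2 then c x.1 * (mc α (x.1 - r) * mc α (x.2 - s)) else 0) = 0) :
    Tri N (rect 2 k) (PP c (k + k)) := by
  intro d hd S
  have key : ∀ i, d i ≤ k := by
    intro i
    let W : ℕ → Submodule K (MvPolynomial (Fin N) K) := fun _ =>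
      { carrier := {p | p.degreeOf i = 0}
        add_mem' := fun {a b} ha hb => Nat.le_zero.1 ((degreeOf_add_le _ _ _).trans
          (max_le (le_of_eq ha) (le_of_eq hb)))
        zero_mem' := degreeOf_zero _
        smul_mem' := fun c a ha => Nat.le_zero.1 (by
          rw [smul_eq_C_mul]
          exact (degreeOf_C_mul_le _ _ _).trans (le_of_eq ha)) }
    let g' : ℕ → MvPolynomial (Fin N) K := newton K fun r => α • ∑ j ∈ univ.erase i, X j ^ (r + 1)
    have hg : ∀ r, (g' r).degreeOf i = 0 := nw_mem W (degreeOf_C 1 i) (fun _ _ a b ha hb =>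
      Nat.le_zero.1 ((degreeOf_mul_le _ _ _).trans (add_le_add (le_of_eq ha) (le_of_eq hb)))) _
      fun r => Submodule.smul_mem _ _ (Submodule.sum_mem _ fun j hj =>
        degreeOf_X_pow_of_ne _ (mem_erase.1 hj).1.symm)
    have h1 : ∀ b ≤ k + k, toX N (g b) = ∑ r ∈ range (k + k + 1),
        if r ≤ b then mc α (b - r) • (X i ^ (b - r) * g' r) else 0 := by
      intro b hb
      rw [g, nw_map, show (fun r => toX N (α • X r)) = fun r => α • ∑ j ∈ univ.erase i, X j ^ (r + 1)
        + α • X i ^ (r + 1) by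
          ext1 r
          rw [← smul_add, sum_erase_add _ _ (mem_univ i)]
          simp [toX, psum], nw_add, ← sum_filter, Nat.sum_antidiagonal_eq_sum_range_succ_mk]
      refine sum_congr (by ext; simp; omega) fun r _ => ?_
      rw [nw_geo, mul_smul_comm, mul_comm]
    have h2 : toX N (PP c (k + k)) = ∑ r ∈ range (k + k + 1), ∑ s ∈ range (k + k + 1),
        (∑ x ∈ antidiagonal (k + k), if r ≤ x.1 ∧ s ≤ x.2 then
          c x.1 * (mc α (x.1 - r) * mc α (x.2 - s)) else 0) • (X i ^ (k + k - r - s) * (g' r * g' s)) := by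
      simp only [sum_smul]
      rw [PP, map_sum, sum_congr rfl fun _ _ => sum_comm, sum_comm]
      refine sum_congr rfl fun x hx => ?_
      have hx := mem_antidiagonal.1 hx
      rw [map_smul, map_mul, h1 _ (by omega), h1 _ (by omega), sum_mul_sum, smul_sum]
      refine sum_congr rfl fun r _ => ?_
      rw [smul_sum]
      refine sum_congr rfl fun s _ => ?_
      by_cases a : r ≤ x.1 <;> by_cases b : s ≤ x.2 <;> simp only [a, b, if_true, if_false,
        and_self, and_false, false_and, mul_zero, zero_mul, smul_zero, zero_smul]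
      rw [show k + k - r - s = (x.1 - r) + (x.2 - s) by omega, pow_add]
      simp only [smul_eq_C_mul, map_mul]
      ring
    refine (monomial_le_degreeOf i (mem_support_iff.2 hd)).trans ?_
    rw [h2]
    refine (degreeOf_sum_le _ _ _).trans (Finset.sup_le fun r _ => (degreeOf_sum_le _ _ _).trans
      (Finset.sup_le fun s _ => ?_))
    by_cases hr : r + s < k
    · simp [h r s hr]
    · rw [smul_eq_C_mul]
      refine (degreeOf_C_mul_le _ _ _).trans ((degreeOf_mul_le _ _ _).trans ?_)
      have a := degreeOf_mul_le i (g' r) (g' s)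
      have b := degreeOf_pow_le i (X i : MvPolynomial (Fin N) K) (k + k - r - s)
      rw [degreeOf_X, if_pos rfl] at b
      rw [hg, hg] at a
      omega
  have h1 : d.degree = k + k := by
    rw [Finsupp.degree_eq_weight_one]
    exact hom_toX N (hom_PP c _) hd
  have h2 := sum_le_sum_of_subset (f := d) S.subset_univ
  have h3 := sum_le_card_nsmul S d k fun i _ => key i
  rw [← Finsupp.degree_eq_sum, h1] at h2
  generalize S.card = m at h3 ⊢
  rcases m with _ | _ | m
  · simpa using h3
  · simpa [rect_row] using h3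
  · simpa [rect_row, sum_range_succ'] using h2

lemma jack_uniq {n : ℕ} {μ : YoungDiagram} {P Q : Λ} (hP : IsJackP α⁻¹ n μ P)
    (hQ : IsJackP α⁻¹ n μ Q) : P = Q := by
  have h1 : Hom n (P - Q) := IsWeightedHomogeneous.sub hP.1 hQ.1
  have h2 : Tri n μ (P - Q) := fun d hd => by
    rw [map_sub, coeff_sub] at hd
    by_cases h : coeff d (toX n P) = 0
    · exact hQ.2.1 d fun e => hd (by rw [h, e, sub_zero])
    · exact hP.2.1 d h
  have h3 : lead n μ (P - Q) = 0 := by
    have a := hP.2.2.1
    have b := hQ.2.2.1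
    rw [lead] at a b ⊢
    rw [map_sub, coeff_sub, a, b, sub_self]
  have h4 : form α⁻¹ (P - Q) (P - Q) = 0 := by
    have a := hP.2.2.2 _ h1 h2 h3
    have b := hQ.2.2.2 _ h1 h2 h3
    rw [form] at a b ⊢
    rw [← sub_self (0 : K)]
    nth_rw 1 [← a, ← b]
    rw [← sum_sub_distrib]
    exact sum_congr rfl fun d _ => by rw [coeff_sub]; ring
  obtain ⟨τ, t1, t2⟩ : ∃ τ : ℝ, 0 < τ ∧ Transcendental ℚ τ := by
    have : Transcendental ℚ (liouvilleNumber 2) := fun h =>
      transcendental_liouvilleNumber le_rfl ((IsFractionRing.isAlgebraic_iff ℤ ℚ ℝ).2 h)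
    exact ⟨_, sq_pos_of_ne_zero fun e => this (by rw [e]; exact isAlgebraic_zero),
      this.pow (by omega : 0 < 2)⟩
  let φ : K →+* ℝ := IsFractionRing.lift (A := Polynomial ℚ)
    (g := (Polynomial.aeval τ : Polynomial ℚ →ₐ[ℚ] ℝ).toRingHom) (transcendental_iff_injective.1 t2)
  have hφ : φ α = τ := by
    rw [α, ← RatFunc.algebraMap_X, IsFractionRing.lift_algebraMap]
    simp
  have h5 := congrArg φ h4
  simp only [form, map_sum, map_mul, map_pow, map_inv₀, hφ, map_natCast, map_zero] at h5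
  rw [sum_eq_zero_iff_of_nonneg fun d _ => by
    have := mul_self_nonneg (φ (coeff d (P - Q)))
    positivity] at h5
  rw [← sub_eq_zero, ← support_eq_empty, eq_empty_iff_forall_notMem]
  intro d hd
  have := h5 d hd
  have z := zee_ne d
  simp [-coeff_sub, z, t1.ne'] at this
  exact mem_support_iff.1 hd this

end Pool.Agent.H.MP_e60a9a_co
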