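import Pool.Agent.H.MP_e60a9a_co.B

set_option autoImplicit false

namespace Pool.Agent.H.MP_e60a9a_co

open Finset MvPolynomial

noncomputable def RR (γ : K) : ℕ → Polynomial K := newton K (rf γ)

lemma ρ_g (b : ℕ) : ρ 1 (g b) = RR α b := by
  rw [g, nw_map, RR]
  congr 1
  ext1 i
  simp [ρ, rf]

lemma ρ_e (b : ℕ) : ρ α (e b) = (-1) ^ b * RR (-α) b := by
  rw [e, nw_map, RR, ← nw_scale]
  congr 1
  ext1 i
  simp [ρ, rf, pow_succ]
  ring

lemma hom_e (b : ℕ) : Hom b (e b) := by
  convert hom_nw (fun i => (-1) ^ i) b using 1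
  rw [e]
  congr 1
  ext1 i
  simp [smul_eq_C_mul]

lemma coeff_RR (γ : K) (b j : ℕ) :
    (RR γ b).coeff j = if j ≤ b then mc γ j * mc γ (b - j) else 0 := by
  rw [RR, show rf γ = fun i => γ • Polynomial.X ^ (i + 1) + γ • 1 ^ (i + 1) by
    ext1 i
    simp [rf], nw_add, Nat.sum_antidiagonal_eq_sum_range_succ_mk]
  simp only [nw_geo]
  simp only [one_pow, smul_mul_smul_comm, mul_one, Polynomial.finsetSum_coeff,
    Polynomial.coeff_smul, Polynomial.coeff_X_pow, smul_eq_mul, mul_ite, mul_zero, sum_ite_eq,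
    mem_range, Nat.lt_succ_iff]

lemma schur_rect (m : ℕ) : schur (rect (m + 1) 2) = e (m + 1) * e (m + 1) - e (m + 2) * e m := by
  have : ∀ r, r = 2 → (Matrix.of fun i j : Fin r => if (i : ℕ) ≤ (rect (m + 1) 2).colLen i + j then
      e ((rect (m + 1) 2).colLen i + j - i) else 0).det =
      e (m + 1) * e (m + 1) - e (m + 2) * e m := by
    rintro _ rfl
    simp [Matrix.det_fin_two, rect_col]
  exact this _ (by simp [rect_row])

def padd : List ℤ → List ℤ → List ℤ
  | [], q => q
  | a :: p, [] => a :: p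
  | a :: p, b :: q => (a + b) :: padd p q

def pmul : List ℤ → List ℤ → List ℤ
  | [], _ => []
  | a :: p, q => padd (q.map (a * ·)) (0 :: pmul p q)

def ev {R : Type} [CommRing R] (x : R) : List ℤ → R
  | [] => 0
  | a :: p => a + x * ev x p

inductive Ex
  | lin (a b : ℤ)
  | add (p q : Ex)
  | mul (p q : Ex)

def vl {R : Type} [CommRing R] (x : R) : Ex → R
  | .lin a b => a + x * b
  | .add p q => vl x p + vl x q
  | .mul p q => vl x p * vl x q

def nb : Ex → ℕ
  | .lin a b => a.natAbs + b.natAbs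
  | .add p q => nb p + nb q
  | .mul p q => nb p * nb q

def toL : Ex → List ℤ
  | .lin a b => [a, b]
  | .add p q => padd (toL p) (toL q)
  | .mul p q => pmul (toL p) (toL q)

def lsum : ℕ → (ℕ → Ex) → Ex
  | 0, _ => .lin 0 0
  | n + 1, f => .add (lsum n f) (f n)

def lprod : ℕ → (ℕ → Ex) → Ex
  | 0, _ => .lin 1 0
  | n + 1, f => .mul (f n) (lprod n f)

def isZ (p : Ex) : Bool := vl ((nb p : ℤ) + 1) p == 0

def nrm (L : List ℤ) : ℕ := (L.map Int.natAbs).sum

lemma nrm_add : ∀ p q, nrm (padd p q) ≤ nrm p + nrm q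
  | [], q => by simp [padd, nrm]
  | a :: p, [] => by simp [padd, nrm]
  | a :: p, b :: q => by
    have := nrm_add p q
    have := Int.natAbs_add_le a b
    simp only [padd, nrm, List.map_cons, List.sum_cons] at *
    omega

lemma nrm_mul : ∀ p q, nrm (pmul p q) ≤ nrm p * nrm q
  | [], q => by simp [pmul, nrm]
  | a :: p, q => by
    have h1 : nrm (q.map (a * ·)) = a.natAbs * nrm q := by
      simp [nrm, Function.comp_def, Int.natAbs_mul, List.sum_map_mul_left]
    have h2 := nrm_mul p q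
    refine (nrm_add _ _).trans ?_
    rw [h1]
    simpa [nrm, add_mul] using h2

lemma nrm_toL : ∀ p, nrm (toL p) ≤ nb p
  | .lin a b => by simp [toL, nrm, nb]
  | .add p q => (nrm_add _ _).trans (add_le_add (nrm_toL p) (nrm_toL q))
  | .mul p q => (nrm_mul _ _).trans (Nat.mul_le_mul (nrm_toL p) (nrm_toL q))

section
variable {R : Type} [CommRing R] (x : R)

lemma ev_add : ∀ p q, ev x (padd p q) = ev x p + ev x q
  | [], q => by simp [padd, ev]
  | a :: p, [] => by simp [padd, ev]
  | a :: p, b :: q => by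
    simp only [padd, ev, ev_add p q, Int.cast_add]
    ring

lemma ev_mul : ∀ p q, ev x (pmul p q) = ev x p * ev x q
  | [], q => by simp [pmul, ev]
  | a :: p, q => by
    have : ev x (q.map (a * ·)) = a * ev x q := by
      induction q with
      | nil => simp [ev]
      | cons b q ih =>
        simp only [List.map_cons, ev, ih, Int.cast_mul]
        ring
    simp only [pmul, ev_add, ev, ev_mul p q, this]
    push_cast
    ring

lemma vl_toL : ∀ p, vl x p = ev x (toL p)
  | .lin a b => by simp [toL, ev, vl]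
  | .add p q => by rw [vl, toL, ev_add, vl_toL p, vl_toL q]
  | .mul p q => by rw [vl, toL, ev_mul, vl_toL p, vl_toL q]

lemma vl_sum (n : ℕ) (f : ℕ → Ex) : vl x (lsum n f) = ∑ i ∈ range n, vl x (f i) := by
  induction n with
  | zero => simp [lsum, vl]
  | succ n ih => rw [lsum, vl, ih, sum_range_succ]

lemma vl_prod (n : ℕ) (f : ℕ → Ex) : vl x (lprod n f) = ∏ i ∈ range n, vl x (f i) := by
  induction n with
  | zero => simp [lprod, vl]
  | succ n ih => rw [lprod, vl, ih, prod_range_succ, mul_comm]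

lemma ev_zero (n : ℕ) : ∀ L, nrm L ≤ n → ev ((n : ℤ) + 1) L = 0 → ev x L = 0
  | [], _, _ => rfl
  | a :: p, h, h' => by
    simp only [nrm, List.map_cons, List.sum_cons, ev, Int.cast_id] at h h'
    have : a = 0 := Int.eq_zero_of_dvd_of_natAbs_lt_natAbs (d := n + 1)
      ⟨-ev ((n : ℤ) + 1) p, by linear_combination h'⟩ (by omega)
    rw [this, zero_add, mul_eq_zero] at h'
    simp [ev, this, ev_zero n p (by rw [nrm]; omega) (h'.resolve_left (by omega))]

lemma vl_isZ (p : Ex) (h : isZ p = true) : vl x p = 0 := by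
  rw [isZ, beq_iff_eq, vl_toL] at h
  rw [vl_toL, ev_zero x _ _ (nrm_toL p) h]

lemma vl_eq {p q : Ex} (h : isZ (.add p (.mul (.lin (-1) 0) q)) = true) : vl x p = vl x q := by
  have := vl_isZ x _ h
  simp only [vl] at this
  push_cast at this
  linear_combination this

lemma ev_map {S : Type} [CommRing S] (φ : R →+* S) : ∀ L, φ (ev x L) = ev (φ x) L
  | [] => by simp [ev]
  | a :: p => by simp [ev, ev_map φ p]

lemma ev_range : ∀ (L : List ℤ) (n : ℕ), L.length ≤ n →
    ev x L = ∑ i ∈ range n, (L.getD i 0 : ℤ) * x ^ i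
  | [], n, _ => by simp [ev]
  | a :: p, n + 1, h => by
    rw [sum_range_succ', ev, ev_range p n (by simpa using h), mul_sum, add_comm]
    simp only [List.getD_cons_succ, List.getD_cons_zero, pow_zero, mul_one, add_left_inj]
    exact sum_congr rfl fun _ _ => by ring
end

lemma vl_ne {L : Ex} (h : vl (1 : ℤ) L ≠ 0) : vl α L ≠ 0 := by
  intro e
  rw [vl_toL] at h e
  rw [α, ← RatFunc.algebraMap_X, ← ev_map, ← map_zero (algebraMap (Polynomial ℚ) K)] at e
  have := congrArg (Polynomial.evalRingHom 1) (RatFunc.algebraMap_injective ℚ e)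
  rw [ev_map, map_zero, Polynomial.coe_evalRingHom, Polynomial.eval_X, ← map_one (Int.castRingHom ℚ),
    ← ev_map] at this
  exact h (Int.cast_eq_zero.1 this)

def mcL (s : ℤ) (n j : ℕ) : Ex := .mul (.lin (n.factorial / j.factorial : ℕ) 0) (lprod j fun i => .lin i s)

def rL (s : ℤ) (n b j : ℕ) : Ex := if j ≤ b then .mul (mcL s n j) (mcL s n (b - j)) else .lin 0 0

def cvL (s : ℤ) (n a b j : ℕ) : Ex := lsum (j + 1) fun i => .mul (rL s n a i) (rL s n b (j - i))

def cL (k b : ℕ) : Ex := .mul (lprod (b - k + (k - b)) fun j => .lin j (-1))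
  (lprod (k - (b - k + (k - b))) fun j => .lin (b - k + (k - b) + 1 + j : ℕ) 1)

def kaL (k r s : ℕ) : Ex := lsum (k + k + 1) fun b => if r ≤ b ∧ s ≤ k + k - b then
  .mul (cL k b) (.mul (mcL 1 (k + k) (b - r)) (mcL 1 (k + k) (k + k - b - s))) else .lin 0 0

def leL (k : ℕ) : Ex := lsum (k + k + 1) fun b => .mul (cL k b) (cvL 1 (k + k) b (k + k - b) k)

def tL (m k : ℕ) : Ex := lsum (k + k + 1) fun b => .mul (cL k b)
  (.add (cvL (-1) (k + k) k k b) (.mul (.lin (-1) 0) (cvL (-1) (k + k) (m + 2) m b)))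

def hookL (k : ℕ) : Ex :=
  .mul (lprod k fun j => .lin (k - j - 1 : ℕ) 2) (lprod k fun j => .lin (k - j - 1 : ℕ) 1)

lemma ev_mcL (s : ℤ) {n j : ℕ} (h : j ≤ n) : vl α (mcL s n j) = n.factorial * mc (s * α) j := by
  have := mc_eq (s * α) j
  obtain ⟨q, hq⟩ := Nat.factorial_dvd_factorial h
  rw [mcL, vl, vl_prod, hq, Nat.mul_div_cancel_left _ j.factorial_pos]
  simp only [vl, Int.cast_natCast, Nat.cast_mul]
  rw [prod_congr rfl (g := fun i : ℕ => s * α + i) fun _ _ => by ring, ← this]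
  ring

lemma ev_cvL (s : ℤ) {n a b : ℕ} (ha : a ≤ n) (hb : b ≤ n) (j : ℕ) : vl α (cvL s n a b j) =
    n.factorial ^ 4 * (RR (s * α) a * RR (s * α) b).coeff j := by
  have : ∀ b ≤ n, ∀ j, vl α (rL s n b j) = n.factorial ^ 2 * (RR (s * α) b).coeff j := by
    intro b hb j
    rw [rL, coeff_RR]
    split_ifs
    · rw [vl, ev_mcL _ (by omega), ev_mcL _ (by omega)]
      ring
    · simp [vl]
  rw [cvL, vl_sum, Polynomial.coeff_mul, Nat.sum_antidiagonal_eq_sum_range_succ_mk, mul_sum]
  refine sum_congr rfl fun i _ => ?_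
  rw [vl, this _ ha, this _ hb]
  ring

theorem main (N m k : ℕ) (hk : k = m + 1) (hN : N + 2 = k + k)
    (h1 : ∀ r < k, ∀ s < k - r, isZ (kaL k r s) = true) (h2 : vl (1 : ℤ) (leL k) ≠ 0) :
    ∃ P, (∀ Q, IsJackP α⁻¹ (N + 2) (rect 2 k) Q ↔ Q = P) ∧
      jackSchur (rect 2 k) (rect k 2) P * vl α (leL k) = vl α (.mul (hookL k) (tL m k)) := by
  have l0 := vl_ne h2
  have f0 : ((k + k).factorial : K) ≠ 0 := Nat.cast_ne_zero.2 (Nat.factorial_ne_zero _)
  let c : ℕ → K := fun b => vl α (cL k b) * ((k + k).factorial ^ 4 / vl α (leL k))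
  have hP : IsJackP α⁻¹ (N + 2) (rect 2 k) (PP c (k + k)) := by
    refine ⟨hN ▸ hom_PP _ _, tri_PP c fun r s h => ?_, ?_, fun F a b d => orth c (hN ▸ a) b d⟩
    · have := vl_isZ α _ (h1 r (by omega) s (by omega))
      rw [kaL, vl_sum] at this
      replace this := congrArg (· * ((k + k).factorial ^ 2 / vl α (leL k))) this
      simp only [sum_mul, zero_mul] at this
      rw [Nat.sum_antidiagonal_eq_sum_range_succ_mk]
      refine (sum_congr rfl fun b hb => ?_).trans this
      have := mem_range.1 hb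
      split_ifs
      · rw [vl, vl, ev_mcL _ (by omega), ev_mcL _ (by omega)]
        simp only [c, Int.cast_one, one_mul]
        ring
      · simp [vl]
    · rw [lead_eq (hom_PP _ _), PP, map_sum, Polynomial.finsetSum_coeff,
        Nat.sum_antidiagonal_eq_sum_range_succ_mk]
      refine Eq.trans ?_ (div_self l0)
      nth_rw 1 [leL]
      rw [vl_sum, sum_div]
      refine sum_congr rfl fun b hb => ?_
      have := mem_range.1 hb
      rw [vl, ev_cvL _ (by omega) (by omega), map_smul, map_mul, ρ_g, ρ_g]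
      simp only [c, Int.cast_one, one_mul, Polynomial.coeff_smul, smul_eq_mul]
      ring
  refine ⟨_, fun Q => ⟨fun h => jack_uniq h hP, fun h => h ▸ hP⟩, ?_⟩
  have h3 : form 1 (PP c (k + k)) (schur (rect k 2)) * vl α (leL k) = vl α (tL m k) := by
    subst hk
    have a : Hom (m + 1 + (m + 1)) (e (m + 2) * e m) :=
      (show m + 2 + m = m + 1 + (m + 1) by omega) ▸ IsWeightedHomogeneous.mul (hom_e _) (hom_e _)
    rw [schur_rect, form_PP _ _ _ _ (IsWeightedHomogeneous.sub
      (IsWeightedHomogeneous.mul (hom_e _) (hom_e _)) a), LL, tL, vl_sum,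
      Nat.sum_antidiagonal_eq_sum_range_succ_mk, sum_mul, one_mul, show ρ α (e (m + 1) * e (m + 1) -
        e (m + 2) * e m) = RR (-α) (m + 1) * RR (-α) (m + 1) - RR (-α) (m + 2) * RR (-α) m by
        simp only [map_sub, map_mul, ρ_e]
        rcases neg_one_pow_eq_or (Polynomial K) m with h | h <;> simp [pow_succ, h]]
    refine sum_congr rfl fun b _ => ?_
    rw [vl, vl, vl, ev_cvL _ (by omega) (by omega), ev_cvL _ (by omega) (by omega)]
    simp only [c, vl, Int.cast_neg, Int.cast_one, neg_mul, one_mul, Polynomial.coeff_sub]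
    field_simp
    ring
  rw [jackSchur, mul_assoc, h3, vl, hookL, vl, vl_prod, vl_prod, YoungDiagram.card,
    ← prod_const, ← prod_mul_distrib, show (rect 2 k).cells = range 2 ×ˢ range k from rfl,
    prod_product, prod_range_succ, prod_range_one]
  have := α_ne
  congr 2 <;> refine prod_congr rfl fun j hj => ?_ <;>
    simp [vl, rect_row, rect_col, mem_range.1 hj] <;> field_simp <;> ring

end Pool.Agent.H.MP_e60a9a_co

namespace Pool.Agent.H.MP_e60a9a_co

def tri (x : ℚ) : List ℤ → ℚ × ℚ × ℚ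
  | [] => (0, 0, 0)
  | a :: p => (a + x * (tri x p).1, (tri x p).1 + x * (tri x p).2.1,
      2 * (tri x p).2.1 + x * (tri x p).2.2)

open Polynomial in
lemma nonreal (L : List ℤ) (x : ℚ) (h : (tri x L).2.1 ^ 2 < (tri x L).1 * (tri x L).2.2) :
    ∃ z : ℂ, z.im ≠ 0 ∧ ev z L = 0 := by
  have h1 : ∀ L, eval (x : ℂ) (ev X L) = (tri x L).1 ∧ eval (x : ℂ) (derivative (ev X L)) = (tri x L).2.1
      ∧ eval (x : ℂ) (derivative (derivative (ev X L))) = (tri x L).2.2 := by
    intro L
    induction L with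
    | nil => simp [ev, tri]
    | cons a p ih =>
      simp [ev, tri, ih]
      ring
  have h2 : ∀ s : Multiset ℂ, (∀ z ∈ s, z.im = 0) → ∃ A B D : ℝ, A * D ≤ B ^ 2 ∧
      eval (x : ℂ) (s.map (X - C ·)).prod = A ∧ eval (x : ℂ) (derivative (s.map (X - C ·)).prod) = B ∧
      eval (x : ℂ) (derivative (derivative (s.map (X - C ·)).prod)) = D := by
    intro s
    induction s using Multiset.induction_on with
    | empty => exact fun _ => ⟨1, 0, 0, by simp⟩
    | cons z s ih =>
      intro hs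
      obtain ⟨A, B, D, a, b⟩ := ih fun w hw => hs w (Multiset.mem_cons_of_mem hw)
      obtain ⟨r, rfl⟩ : ∃ r : ℝ, z = r := ⟨z.re, Complex.ext rfl (hs z (Multiset.mem_cons_self _ _))⟩
      refine ⟨(x - r) * A, A + (x - r) * B, 2 * B + (x - r) * D, by
        nlinarith [mul_nonneg (sq_nonneg (x - r)) (sub_nonneg.2 a), sq_nonneg A], ?_⟩
      simp [b]
      ring
  by_contra hc
  push Not at hc
  obtain ⟨A, B, D, a, b1, b2, b3⟩ := h2 (ev (X : ℂ[X]) L).roots fun z hz => by
    by_contra e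
    have := ev_map X (evalRingHom z) L
    rw [coe_evalRingHom, eval_X, (mem_roots'.1 hz).2] at this
    exact hc z e this.symm
  obtain ⟨c1, c2, c3⟩ := h1 L
  rw [(IsAlgClosed.splits (ev (X : ℂ[X]) L)).eq_prod_roots] at c1 c2 c3
  simp only [derivative_C_mul, eval_C_mul, b1, b2, b3] at c1 c2 c3
  generalize (ev (X : ℂ[X]) L).leadingCoeff = l at c1 c2 c3
  have h' : ((tri x L).2.1 : ℝ) ^ 2 < (tri x L).1 * (tri x L).2.2 := by exact_mod_cast h
  have d1 := congrArg Complex.re c1
  have d2 := congrArg Complex.re c2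
  have d3 := congrArg Complex.re c3
  simp at d1 d2 d3
  rw [← d1, ← d2, ← d3] at h'
  nlinarith [mul_nonneg (sq_nonneg l.re) (sub_nonneg.2 a)]

end Pool.Agent.H.MP_e60a9a_co
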