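import Mathlib

set_option autoImplicit false

namespace Pool.Agent.H.MP_e60a9a_co

open Finset MvPolynomial

/-- the solution of Newton's recursion `n H_n = ∑_{i=1}^n f_{i-1} H_{n-i}`, `H_0 = 1` -/
noncomputable def newton (k : Type) [Field k] {R : Type} [CommRing R] [Algebra k R] (f : ℕ → R) :
    ℕ → R
  | 0 => 1
  | n + 1 => ((n + 1 : ℕ) : k)⁻¹ • ∑ i : Fin (n + 1), f i * newton k f (n - i)

/-- the field `ℚ(α)` -/
abbrev K := RatFunc ℚ

noncomputable def α : K := RatFunc.X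

/-- symmetric functions over `ℚ(α)`: the polynomial ring on the power sums, `X i = p_{i+1}` -/
abbrev Λ := MvPolynomial ℕ K

/-- homogeneous of degree `n` (`p_r` has degree `r`) -/
def Hom (n : ℕ) (F : Λ) : Prop := F.IsWeightedHomogeneous (fun i => i + 1) n

/-- `z_ρ` for the partition `ρ` with `d i` parts equal to `i + 1` -/
def zee (d : ℕ →₀ ℕ) : ℕ := d.prod fun i m => (i + 1) ^ m * m.factorial

/-- the form with `⟨p_ρ, p_σ⟩ = δ z_ρ t ^ ℓ(ρ)`; `t = 1` is the Hall inner product -/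
noncomputable def form (t : K) (F G : Λ) : K :=
  ∑ d ∈ G.support, coeff d F * coeff d G * zee d * t ^ d.degree

/-- expansion in the variables `x_1, …, x_n` -/
noncomputable def toX (n : ℕ) : Λ →ₐ[K] MvPolynomial (Fin n) K :=
  aeval fun i => psum (Fin n) K (i + 1)

/-- every monomial of `F` has shape dominated by `μ` -/
def Tri (n : ℕ) (μ : YoungDiagram) (F : Λ) : Prop :=
  ∀ d, coeff d (toX n F) ≠ 0 → ∀ S : Finset (Fin n), ∑ i ∈ S, d i ≤ ∑ i ∈ range S.card, μ.rowLen i

/-- the coefficient of `m_μ` in `F` -/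
noncomputable def lead (n : ℕ) (μ : YoungDiagram) (F : Λ) : K :=
  coeff (Finsupp.equivFunOnFinite.symm fun i : Fin n => μ.rowLen i) (toX n F)

/-- `P = m_μ + ∑_{ν < μ} c_ν m_ν` is orthogonal to the span of the `m_ν`, `ν < μ` -/
def IsJackP (t : K) (n : ℕ) (μ : YoungDiagram) (P : Λ) : Prop :=
  Hom n P ∧ Tri n μ P ∧ lead n μ P = 1 ∧
    ∀ F, Hom n F → Tri n μ F → lead n μ F = 0 → form t P F = 0

/-- the elementary symmetric functions, by Newton's identities -/
noncomputable def e : ℕ → Λ := newton K fun i => (-1) ^ i * X i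

/-- the Schur function, by the dual Jacobi-Trudi determinant `det (e_{λ'_i - i + j})` -/
noncomputable def schur (l : YoungDiagram) : Λ :=
  (Matrix.of fun i j : Fin (l.rowLen 0) =>
    if (i : ℕ) ≤ l.colLen i + j then e (l.colLen i + j - i) else 0).det

/-- `⟨α ^ n J_μ^{(1/α)}, s_λ⟩`, where `P = P_μ^{(1/α)}` and `n = |μ|` -/
noncomputable def jackSchur (μ l : YoungDiagram) (P : Λ) : K :=
  α ^ μ.card * (∏ s ∈ μ.cells, (α⁻¹ * (μ.rowLen s.1 - s.2 - 1 : ℕ) +
    (μ.colLen s.2 - s.1 - 1 : ℕ) + 1)) * form 1 P (schur l)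

/-- the rectangle with `a` rows of length `b` -/
def rect (a b : ℕ) : YoungDiagram where
  cells := range a ×ˢ range b
  isLowerSet := by
    rintro ⟨i, j⟩ ⟨i', j'⟩ ⟨h1, h2⟩ h
    simp only [coe_product, coe_range, Set.mem_prod, Set.mem_Iio] at h h1 h2 ⊢
    omega

end Pool.Agent.H.MP_e60a9a_co
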